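import Pool.Agent.W309.LR.Main
import Pool.Agent.W309.LR.Pairs

/-!
# Linear relations between `1`, `π` and the members of families through `e`

`e` is the member `z = 1`, `P = 1`, `(α, β) = (1, 0)`, `u = 1, w = 0`, `r = s = 1` of the families
`e ^ z`, `e ^ (P(π))`, `e ^ (α + β π)`, `e ^ (u + w)`, `(e ^ r, π ^ s)`.
-/

set_option autoImplicit false

namespace Pool.Agent.Results.MP_58e087_nt.ExceptionalCosets

open Polynomial Module
open Pool.Agent.W309.LR
open Pool.Agent.W242.GG (piC_tr exp_one_tr)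

theorem result :
    -- (1) spaces of numbers algebraic over `ℚ(t)`: the exceptional set is a union of cosets of a
    -- subspace `V`, linearly independent modulo `V`, and there are few of them
    (∀ t : ℂ, Transcendental ℚ t → ∀ y : ℂ, y ≠ 0 → ∀ N : Submodule ℚ ℂ,
      FiniteDimensional ℚ N → (∀ z ∈ N, ¬ AlgebraicIndependent ℚ ![t, z]) →
      ∃ (V : Submodule ℚ ℂ) (c : ℕ) (f : Fin c → ℂ),
        (∀ z, z ∈ V ↔ z ∈ N ∧ IsAlgebraic ℚ (Complex.exp (y * z))) ∧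
        (∀ z, (z ∈ N ∧ ¬ LinearIndependent (algebraicClosure ℚ ℂ)
            ![(1 : ℂ), t, Complex.exp (y * z)]) ↔ z ∈ V ∨ ∃ i, z - f i ∈ V) ∧
        LinearIndependent ℚ (fun i => V.mkQ (f i)) ∧
        ∀ X Y : Submodule ℚ ℂ, FiniteDimensional ℚ X → FiniteDimensional ℚ Y →
          (∀ x ∈ X, ∀ z ∈ N, x * z ∈ Y) →
          finrank ℚ X * (finrank ℚ V + c) ≤
            finrank ℚ Y + 2 * (finrank ℚ X * (finrank ℚ X - 1)) ∧
          (¬ AlgebraicIndependent ℚ ![t, y] →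
            finrank ℚ X * (finrank ℚ V + c) ≤
              finrank ℚ Y + finrank ℚ X * (finrank ℚ X - 1))) ∧
    -- (2) polynomials with coefficients in a number field `K`
    (∀ t : ℂ, Transcendental ℚ t → ∀ y : ℂ, y ≠ 0 →
      ∀ K : IntermediateField ℚ ℂ, FiniteDimensional ℚ K → ∀ n : ℕ,
      ∃ (V : Submodule ℚ K[X]) (c : ℕ) (f : Fin c → K[X]),
        (∀ P, P ∈ V ↔ P.natDegree ≤ n ∧ IsAlgebraic ℚ (Complex.exp (y * aeval t P))) ∧
        (∀ P : K[X], (P.natDegree ≤ n ∧ ¬ LinearIndependent (algebraicClosure ℚ ℂ)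
            ![(1 : ℂ), t, Complex.exp (y * aeval t P)]) ↔ P ∈ V ∨ ∃ i, P - f i ∈ V) ∧
        LinearIndependent ℚ (fun i => V.mkQ (f i)) ∧
        (∀ k, k * (finrank ℚ V + c + 1) ≤ n + 2 * (finrank ℚ K * k ^ 2)) ∧
        (¬ AlgebraicIndependent ℚ ![t, y] →
          ∀ k, k * (finrank ℚ V + c) ≤ n + finrank ℚ K * k ^ 2)) ∧
    -- (3) the numbers `e ^ (α + β π)` with `α, β` in a number field `K` not containing `i`
    (∀ K : IntermediateField ℚ ℂ, FiniteDimensional ℚ K → Complex.I ∉ K →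
      {p : K × K | p ≠ 0 ∧ ¬ LinearIndependent (algebraicClosure ℚ ℂ)
        ![(1 : ℂ), Real.pi, Complex.exp (p.1 + p.2 * Real.pi)]}.encard ≤ finrank ℚ K + 1) ∧
    -- (4) arbitrary cosets
    (∀ t : ℂ, Transcendental ℚ t → ∀ (W : Submodule ℚ ℂ) (u : ℂ),
      (∀ w ∈ W, w ≠ 0 → Transcendental ℚ (Complex.exp w)) →
      AffineIndependent ℚ (fun w : {w : ℂ // w ∈ W ∧ ¬ LinearIndependent (algebraicClosure ℚ ℂ)
        ![(1 : ℂ), t, Complex.exp (u + w)]} => (w : ℂ))) ∧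
    -- (5) rational powers of `e` and `π`
    (∀ r s r' s' : ℚ, r ≠ 0 → s ≠ 0 → r' ≠ 0 → s' ≠ 0 → (r, s) ≠ (r', s') →
      ¬ LinearIndependent (algebraicClosure ℚ ℂ)
        ![(1 : ℂ), Complex.exp r, ((Real.pi ^ (s : ℝ) : ℝ) : ℂ)] →
      ¬ LinearIndependent (algebraicClosure ℚ ℂ)
        ![(1 : ℂ), Complex.exp r', ((Real.pi ^ (s' : ℝ) : ℝ) : ℂ)] →
      r * s' = r' * s ∧ IsAlgebraic ℚ (Complex.exp r / ((Real.pi ^ (s : ℝ) : ℝ) : ℂ))) := by
  refine ⟨?_, ?_, lines, ?_, ?_⟩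
  · intro t ht y hy N hN hNt
    exact general ht hy N hN hNt
  · intro t ht y hy K hK n
    exact polys ht hy K hK n
  · intro t ht W u hW
    exact aff ht W u hW
  · intro r s r' s' hr hs hr' hs' hne h1 h2
    exact pairsQ piC_tr exp_one_tr hr hs hr' hs' hne h1 h2

end Pool.Agent.Results.MP_58e087_nt.ExceptionalCosets
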