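import Pool.Agent.W242.GG.LogSqrt

/-!
# Linear independence of `1`, `π` (and all logarithms) and powers of `e`
-/

set_option autoImplicit false

namespace Pool.Agent.Results.MP_58e087_nt.PowersAndLogarithms

open Finset Module

/-- linear combinations, with algebraic coefficients, of `1` and of logarithms of algebraic
numbers -/
noncomputable def LogForms : Submodule (algebraicClosure ℚ ℂ) ℂ :=
  Submodule.span (algebraicClosure ℚ ℂ) ({1} ∪ {z : ℂ | IsAlgebraic ℚ (Complex.exp z)})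

/-- the space spanned by `c, c e, ..., c e ^ n` -/
noncomputable def Powers (c : ℂ) (n : ℕ) : Submodule (algebraicClosure ℚ ℂ) ℂ :=
  Submodule.span (algebraicClosure ℚ ℂ) {z : ℂ | ∃ j ≤ n, z = c * Complex.exp 1 ^ j}

/-- the space spanned by all `e ^ j π ^ k` with `j ≤ n`, `k ≤ n` -/
noncomputable def Monomials (n : ℕ) : Submodule (algebraicClosure ℚ ℂ) ℂ :=
  Submodule.span (algebraicClosure ℚ ℂ)
    {z : ℂ | ∃ j ≤ n, ∃ k ≤ n, z = Complex.exp 1 ^ j * (Real.pi : ℂ) ^ k}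

open Classical in
theorem result :
    -- `LogForms` contains `1` and `π`; if `z` is not in `LogForms` then `1, π, z` are linearly
    -- independent over the algebraic numbers
    ((1 : ℂ) ∈ LogForms ∧ (Real.pi : ℂ) ∈ LogForms ∧
      ∀ z : ℂ, z ∉ LogForms → LinearIndependent (algebraicClosure ℚ ℂ) ![1, (Real.pi : ℂ), z]) ∧
    -- the numbers `e ^ j π ^ k` (`e` is the member `j = 1, k = 0`)
    (∀ N : ℕ, (((Icc 1 N ×ˢ range (N + 1)).filter (fun p : ℕ × ℕ =>
      Complex.exp 1 ^ p.1 * (Real.pi : ℂ) ^ p.2 ∈ LogForms)).card : ℝ) ≤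
        (N + 1) * (2 * Real.sqrt N + 1)) ∧
    -- their linear combinations
    (∀ n : ℕ, finrank (algebraicClosure ℚ ℂ)
      (Monomials n ⊓ LogForms : Submodule (algebraicClosure ℚ ℂ) ℂ) ≤ 3 * n + 1) ∧
    -- polynomials in `e`
    (∀ (n : ℕ) (c : ℂ), c ≠ 0 →
      finrank (algebraicClosure ℚ ℂ)
        (Powers c n ⊓ LogForms : Submodule (algebraicClosure ℚ ℂ) ℂ) ^ 2 ≤ 4 * n + 1) ∧
    -- the dimension of the space spanned by some linear forms in logarithms (such as `1, π`) and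
    -- by `c, c e, ..., c e ^ n`
    (∀ (n : ℕ) (c : ℂ) (V : Submodule (algebraicClosure ℚ ℂ) ℂ), c ≠ 0 → V ≤ LogForms →
      FiniteDimensional (algebraicClosure ℚ ℂ) V →
      ∃ w : ℕ, w ^ 2 ≤ 4 * n + 1 ∧
        finrank (algebraicClosure ℚ ℂ) (V ⊔ Powers c n : Submodule (algebraicClosure ℚ ℂ) ℂ) + w =
          finrank (algebraicClosure ℚ ℂ) V + (n + 1)) := by
  have he := Pool.Agent.W242.GG.exp_one_tr
  have hpi := Pool.Agent.W242.GG.piC_tr
  have hpi0 : (Real.pi : ℂ) ≠ 0 := by exact_mod_cast Real.pi_ne_zero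
  refine ⟨⟨Pool.Agent.H301R2.SSE.Lt_one, Pool.Agent.W242.GG.pi_Lt,
    fun z hz => Pool.Agent.W242.GG.li_three hpi Pool.Agent.W242.GG.pi_Lt hz⟩,
    fun N => Pool.Agent.W242.GG.lt_grid he hpi0 N,
    fun n => Pool.Agent.W242.GG.grid_dim he (Real.pi : ℂ) n, ?_, ?_⟩
  · intro n c hc
    rw [sq]
    exact Pool.Agent.W242.GG.powSp_sq he hc n _ inf_le_right inf_le_left
  · intro n c V hc hV hf
    obtain ⟨w, hw, h⟩ := Pool.Agent.W242.GG.powSp_sup_sq he hc n V hV
    exact ⟨w, by rw [sq]; exact hw, h⟩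

end Pool.Agent.Results.MP_58e087_nt.PowersAndLogarithms
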